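import Pool.Agent.H78.Scarf

open Pool.Agent.H78.Scarf

theorem Pool.Agent.Results.MP_0a8151_al.Counter.result (k : Type) [Field k] (o : Gen 6 5 → ℕ)
    (ho : Function.Injective o) :
    ∃ z ∈ chains k 6 5 3, bd k o z = 0 ∧ z ∉ (chains k 6 5 4).map (bd k o) :=
  Pool.Agent.H78.Scarf.main k o ho
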